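import Mathlib

/-!
# Classes of group representations definable by formulas of action

For every nontrivial ring `K` the class of all representations having a nonzero fixed vector is
an abstract class which is axiomatizable (by one formula), saturated and right hereditary, but it
is not defined by any set of formulas of action.
-/

namespace Pool.Agent.Results.MP_98e941_al.FixedVectorClass

open Filter

/-- A representation `(V, G)` over `K`: a `K`-module `V` on which the group `G` acts from the right
by `K`-module automorphisms (not necessarily faithfully). -/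
structure Rep (K : Type) [Ring K] where
  V : Type
  [instAdd : AddCommGroup V]
  [instMod : Module K V]
  G : Type
  [instGrp : Group G]
  act : G →* (V ≃ₗ[K] V)ᵐᵒᵖ

attribute [instance] Rep.instAdd Rep.instMod Rep.instGrp

variable {K : Type} [Ring K]

/-- the right action `v ∘ g` -/
def Rep.circ (ρ : Rep K) (v : ρ.V) (g : ρ.G) : ρ.V := (ρ.act g).unop v

theorem Rep.circ_mul (ρ : Rep K) (v : ρ.V) (g h : ρ.G) :
    ρ.circ v (g * h) = ρ.circ (ρ.circ v g) h := by
  unfold Rep.circ
  rw [map_mul]
  rfl

theorem Rep.circ_one (ρ : Rep K) (v : ρ.V) : ρ.circ v 1 = v := by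
  unfold Rep.circ
  rw [map_one]
  rfl

/-- isomorphism of representations -/
def Rep.Iso (ρ σ : Rep K) : Prop :=
  ∃ (e : ρ.V ≃ₗ[K] σ.V) (f : ρ.G ≃* σ.G), ∀ v g, e (ρ.circ v g) = σ.circ (e v) (f g)

/-- the faithful representation `(V, G/N)` of `(V, G)`, where `N` is the kernel of the action -/
def Rep.faithful (ρ : Rep K) : Rep K where
  V := ρ.V
  G := ρ.G ⧸ ρ.act.ker
  act := QuotientGroup.kerLift ρ.act

/-- the subrepresentation `(V, H)` -/
def Rep.sub (ρ : Rep K) (H : Subgroup ρ.G) : Rep K where
  V := ρ.V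
  G := H
  act := ρ.act.comp H.subtype

/-- First-order formulas with module variables from `X` and group variables from `Y`.  Elementary
formulas are `x₁∘u₁ + ⋯ + xₙ∘uₙ ≡ 0` (`modEq t`, where `t` maps `xᵢ` to `uᵢ ∈ KF`, `F` the free group
on `Y`) and `f ≡ 1` (`grpEq f`, `f ∈ F`). -/
inductive Fml (K X Y : Type) [Ring K] : Type
  | modEq (t : X →₀ MonoidAlgebra K (FreeGroup Y)) : Fml K X Y
  | grpEq (f : FreeGroup Y) : Fml K X Y
  | and (φ ψ : Fml K X Y) : Fml K X Y
  | or (φ ψ : Fml K X Y) : Fml K X Y
  | not (φ : Fml K X Y) : Fml K X Y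
  | allMod (x : X) (φ : Fml K X Y) : Fml K X Y
  | exMod (x : X) (φ : Fml K X Y) : Fml K X Y
  | allGrp (y : Y) (φ : Fml K X Y) : Fml K X Y
  | exGrp (y : Y) (φ : Fml K X Y) : Fml K X Y

variable {X Y : Type}

/-- `v ∘ u` for `u ∈ KF`, group variables being evaluated by `β` -/
noncomputable def Rep.circAlg (ρ : Rep K) (β : Y → ρ.G) (v : ρ.V)
    (u : MonoidAlgebra K (FreeGroup Y)) : ρ.V :=
  u.coeff.sum fun f a => a • ρ.circ v (FreeGroup.lift β f)

/-- the value of `x₁∘u₁ + ⋯ + xₙ∘uₙ` -/
noncomputable def Rep.value (ρ : Rep K) (α : X → ρ.V) (β : Y → ρ.G)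
    (t : X →₀ MonoidAlgebra K (FreeGroup Y)) : ρ.V :=
  t.sum fun x u => ρ.circAlg β (α x) u

open Classical in
/-- satisfaction of a formula under the assignment `α : X → V`, `β : Y → G` -/
def Sat (ρ : Rep K) : Fml K X Y → (X → ρ.V) → (Y → ρ.G) → Prop
  | .modEq t, α, β => ρ.value α β t = 0
  | .grpEq f, _, β => FreeGroup.lift β f = 1
  | .and φ ψ, α, β => Sat ρ φ α β ∧ Sat ρ ψ α β
  | .or φ ψ, α, β => Sat ρ φ α β ∨ Sat ρ ψ α β
  | .not φ, α, β => ¬ Sat ρ φ α β
  | .allMod x φ, α, β => ∀ v : ρ.V, Sat ρ φ (Function.update α x v) β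
  | .exMod x φ, α, β => ∃ v : ρ.V, Sat ρ φ (Function.update α x v) β
  | .allGrp y φ, α, β => ∀ g : ρ.G, Sat ρ φ α (Function.update β y g)
  | .exGrp y φ, α, β => ∃ g : ρ.G, Sat ρ φ α (Function.update β y g)

/-- `φ` holds in `ρ`: it is satisfied under every assignment -/
def Holds (ρ : Rep K) (φ : Fml K X Y) : Prop := ∀ α β, Sat ρ φ α β

/-- formulas of action: only elementary formulas of the first type, no quantification over group
variables -/
def IsAction : Fml K X Y → Prop
  | .modEq _ => True
  | .grpEq _ => False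
  | .and φ ψ => IsAction φ ∧ IsAction ψ
  | .or φ ψ => IsAction φ ∧ IsAction ψ
  | .not φ => IsAction φ
  | .allMod _ φ => IsAction φ
  | .exMod _ φ => IsAction φ
  | .allGrp _ _ => False
  | .exGrp _ _ => False

/-- `C` is defined by the set `T` of formulas -/
def DefinedBy (C : Rep K → Prop) (T : Set (Fml K X Y)) : Prop :=
  ∀ ρ : Rep K, C ρ ↔ ∀ φ ∈ T, Holds ρ φ

/-- abstract class: closed under isomorphism -/
def IsAbstract (C : Rep K → Prop) : Prop := ∀ ρ σ : Rep K, ρ.Iso σ → C ρ → C σ

/-- saturated class -/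
def IsSaturated (C : Rep K → Prop) : Prop := ∀ ρ : Rep K, C ρ ↔ C ρ.faithful

/-- right hereditary class -/
def IsRightHereditary (C : Rep K → Prop) : Prop :=
  ∀ (ρ : Rep K) (H : Subgroup ρ.G), C ρ → C (ρ.sub H)

/-- the class of all representations with a nonzero fixed vector -/
def FixClass (ρ : Rep K) : Prop := ∃ v : ρ.V, v ≠ 0 ∧ ∀ g, ρ.circ v g = v

theorem fixClass_abstract : IsAbstract (FixClass (K := K)) := by
  rintro ρ σ ⟨e, f, hef⟩ ⟨v, hv, hfix⟩
  refine ⟨e v, fun h => hv ((map_eq_zero_iff e e.injective).mp h), fun g => ?_⟩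
  have := hef v (f.symm g)
  rw [hfix, f.apply_symm_apply] at this
  exact this.symm

theorem fixClass_saturated : IsSaturated (FixClass (K := K)) := by
  intro ρ
  constructor
  · rintro ⟨v, hv, hfix⟩
    refine ⟨v, hv, fun g => ?_⟩
    obtain ⟨g', rfl⟩ := QuotientGroup.mk_surjective g
    exact hfix g'
  · rintro ⟨v, hv, hfix⟩
    exact ⟨v, hv, fun g => hfix (QuotientGroup.mk g)⟩

theorem fixClass_hereditary : IsRightHereditary (FixClass (K := K)) := by
  rintro ρ H ⟨v, hv, hfix⟩
  exact ⟨v, hv, fun g => hfix g.1⟩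

theorem value_single (ρ : Rep K) (α : X → ρ.V) (β : Y → ρ.G) (x : X)
    (u : MonoidAlgebra K (FreeGroup Y)) :
    ρ.value α β (Finsupp.single x u) = ρ.circAlg β (α x) u := by
  unfold Rep.value
  rw [Finsupp.sum_single_index]
  unfold Rep.circAlg
  simp

theorem circAlg_single (ρ : Rep K) (β : Y → ρ.G) (v : ρ.V) (f : FreeGroup Y) (a : K) :
    ρ.circAlg β v (MonoidAlgebra.single f a) = a • ρ.circ v (FreeGroup.lift β f) := by
  unfold Rep.circAlg
  rw [MonoidAlgebra.coeff_single, Finsupp.sum_single_index]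
  simp

theorem circAlg_add (ρ : Rep K) (β : Y → ρ.G) (v : ρ.V)
    (u w : MonoidAlgebra K (FreeGroup Y)) :
    ρ.circAlg β v (u + w) = ρ.circAlg β v u + ρ.circAlg β v w := by
  classical
  unfold Rep.circAlg
  rw [MonoidAlgebra.coeff_add, Finsupp.sum_add_index']
  · intro f
    simp
  · intro f a b
    rw [add_smul]

/-- the formula `∃ x (¬ x∘1 ≡ 0 ∧ ∀ y, x∘(y - 1) ≡ 0)` -/
noncomputable def fixFml (K : Type) [Ring K] (x : X) (y : Y) : Fml K X Y :=
  .exMod x (.and (.not (.modEq (Finsupp.single x (MonoidAlgebra.single 1 1))))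
    (.allGrp y (.modEq (Finsupp.single x
      (MonoidAlgebra.single (FreeGroup.of y) 1 + MonoidAlgebra.single 1 (-1))))))

theorem fixClass_defined (x : X) (y : Y) : DefinedBy (FixClass (K := K)) {fixFml K x y} := by
  classical
  intro ρ
  have key : ∀ α β, Sat ρ (fixFml K x y) α β ↔ FixClass ρ := by
    intro α β
    unfold fixFml FixClass
    simp only [Sat, value_single, circAlg_single, circAlg_add, Function.update_self, map_one,
      one_smul, neg_smul, Rep.circ_one, FreeGroup.lift_apply_of, add_neg_eq_zero]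
  constructor
  · intro h φ hφ α β
    rw [Set.mem_singleton_iff.mp hφ]
    exact (key α β).mpr h
  · intro h
    exact (key (fun _ => 0) (fun _ => 1)).mp (h _ rfl _ _)

/-! ### The ultrapower with a fixed group -/

section Ultra

variable (ρ : Rep K) (U : Ultrafilter ℕ)

/-- the action of an automorphism on germs -/
noncomputable def germEquiv (e : ρ.V ≃ₗ[K] ρ.V) :
    Germ (U : Filter ℕ) ρ.V ≃ₗ[K] Germ (U : Filter ℕ) ρ.V where
  toFun := Germ.map e
  invFun := Germ.map e.symm
  map_add' := by
    intro a b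
    induction a using Germ.inductionOn with
    | _ a =>
      induction b using Germ.inductionOn with
      | _ b =>
        rw [← Germ.coe_add, Germ.map_coe, Germ.map_coe, Germ.map_coe, ← Germ.coe_add]
        congr 1
        funext n
        simp
  map_smul' := by
    intro c a
    induction a using Germ.inductionOn with
    | _ a =>
      rw [← Germ.coe_smul, Germ.map_coe, Germ.map_coe, RingHom.id_apply, ← Germ.coe_smul]
      congr 1
      funext n
      simp
  left_inv := by
    intro a
    induction a using Germ.inductionOn with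
    | _ a =>
      rw [Germ.map_coe, Germ.map_coe]
      congr 1
      funext n
      simp
  right_inv := by
    intro a
    induction a using Germ.inductionOn with
    | _ a =>
      rw [Germ.map_coe, Germ.map_coe]
      congr 1
      funext n
      simp

theorem germEquiv_coe (e : ρ.V ≃ₗ[K] ρ.V) (a : ℕ → ρ.V) :
    germEquiv ρ U e (a : Germ (U : Filter ℕ) ρ.V) =
      ((fun n => e (a n) : ℕ → ρ.V) : Germ (U : Filter ℕ) ρ.V) := rfl

/-- the ultrapower of the module, with the same group acting -/
noncomputable def ultra : Rep K where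
  V := Germ (U : Filter ℕ) ρ.V
  G := ρ.G
  act :=
    { toFun := fun g => MulOpposite.op (germEquiv ρ U (ρ.act g).unop)
      map_one' := by
        apply MulOpposite.unop_injective
        apply LinearEquiv.ext
        intro a
        induction a using Germ.inductionOn with
        | _ a =>
          change germEquiv ρ U (ρ.act 1).unop (a : Germ (U : Filter ℕ) ρ.V) = a
          rw [germEquiv_coe, map_one]
          rfl
      map_mul' := by
        intro g h
        apply MulOpposite.unop_injective
        apply LinearEquiv.ext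
        intro a
        induction a using Germ.inductionOn with
        | _ a =>
          change germEquiv ρ U (ρ.act (g * h)).unop (a : Germ (U : Filter ℕ) ρ.V) =
            germEquiv ρ U (ρ.act h).unop (germEquiv ρ U (ρ.act g).unop a)
          rw [germEquiv_coe, germEquiv_coe, germEquiv_coe, map_mul]
          rfl }

/-- the class of a sequence of vectors -/
noncomputable def cls (w : ℕ → ρ.V) : (ultra ρ U).V := (w : Germ (U : Filter ℕ) ρ.V)

theorem cls_surj (v : (ultra ρ U).V) : ∃ w, cls ρ U w = v := by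
  change Germ (U : Filter ℕ) ρ.V at v
  induction v using Germ.inductionOn with
  | _ a => exact ⟨a, rfl⟩

theorem cls_circ (w : ℕ → ρ.V) (g : ρ.G) :
    (ultra ρ U).circ (cls ρ U w) g = cls ρ U fun n => ρ.circ (w n) g := by
  change Germ.map _ (w : Germ (U : Filter ℕ) ρ.V) = _
  rw [Germ.map_coe]
  rfl

theorem cls_eq (w w' : ℕ → ρ.V) : cls ρ U w = cls ρ U w' ↔ ∀ᶠ n in (U : Filter ℕ), w n = w' n :=
  Germ.coe_eq

/-- `cls` as an additive homomorphism -/
noncomputable def clsHom : (ℕ → ρ.V) →+ (ultra ρ U).V where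
  toFun := cls ρ U
  map_zero' := rfl
  map_add' := fun _ _ => rfl

theorem cls_smul (a : K) (w : ℕ → ρ.V) : a • cls ρ U w = cls ρ U fun n => a • w n := rfl

theorem cls_circAlg (w : ℕ → ρ.V) (β : Y → ρ.G) (u : MonoidAlgebra K (FreeGroup Y)) :
    (ultra ρ U).circAlg (Y := Y) β (cls ρ U w) u = cls ρ U fun n => ρ.circAlg β (w n) u := by
  unfold Rep.circAlg Finsupp.sum
  have h : (fun n => ∑ f ∈ u.coeff.support, u.coeff f • ρ.circ (w n) (FreeGroup.lift β f)) =
      ∑ f ∈ u.coeff.support, fun n => u.coeff f • ρ.circ (w n) (FreeGroup.lift β f) := by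
    funext n
    rw [Finset.sum_apply]
  rw [h]
  change _ = clsHom ρ U _
  rw [map_sum]
  refine Finset.sum_congr rfl fun f _ => ?_
  refine (congrArg (fun z => u.coeff f • z) (cls_circ ρ U w (FreeGroup.lift β f))).trans ?_
  rfl

theorem cls_value (α : X → ℕ → ρ.V) (β : Y → ρ.G) (t : X →₀ MonoidAlgebra K (FreeGroup Y)) :
    (ultra ρ U).value (Y := Y) (fun x => cls ρ U (α x)) β t =
      cls ρ U fun n => ρ.value (fun x => α x n) β t := by
  unfold Rep.value Finsupp.sum
  have h : (fun n => ∑ x ∈ t.support, ρ.circAlg β (α x n) (t x)) =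
      ∑ x ∈ t.support, fun n => ρ.circAlg β (α x n) (t x) := by
    funext n
    rw [Finset.sum_apply]
  rw [h]
  change _ = clsHom ρ U _
  rw [map_sum]
  refine Finset.sum_congr rfl fun x _ => ?_
  exact cls_circAlg ρ U (α x) β (t x)

/-- Łoś's theorem for formulas of action -/
theorem sat_ultra (β : Y → ρ.G) (φ : Fml K X Y) (hφ : IsAction φ) : ∀ α : X → ℕ → ρ.V,
    Sat (ultra ρ U) φ (fun x => cls ρ U (α x)) β ↔
      ∀ᶠ n in (U : Filter ℕ), Sat ρ φ (fun x => α x n) β := by
  classical
  have upd : ∀ (α : X → ℕ → ρ.V) (x : X) (w : ℕ → ρ.V),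
      Function.update (fun x => cls ρ U (α x)) x (cls ρ U w) =
        fun z => cls ρ U (Function.update α x w z) := by
    intro α x w
    funext z
    by_cases hz : z = x
    · subst hz
      simp
    · simp [Function.update_of_ne hz]
  have upd2 : ∀ (α : X → ℕ → ρ.V) (x : X) (w : ℕ → ρ.V) (n : ℕ),
      (fun z => Function.update α x w z n) = Function.update (fun z => α z n) x (w n) := by
    intro α x w n
    funext z
    by_cases hz : z = x
    · subst hz
      simp
    · simp [Function.update_of_ne hz]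
  induction φ with
  | modEq t =>
    intro α
    simp only [Sat]
    rw [cls_value]
    change cls ρ U _ = cls ρ U (fun _ => 0) ↔ _
    rw [cls_eq]
  | grpEq f => exact absurd hφ id
  | and φ ψ ih1 ih2 =>
    intro α
    simp only [Sat]
    rw [ih1 hφ.1 α, ih2 hφ.2 α, ← Filter.eventually_and]
  | or φ ψ ih1 ih2 =>
    intro α
    simp only [Sat]
    rw [ih1 hφ.1 α, ih2 hφ.2 α, ← Ultrafilter.eventually_or]
  | not φ ih =>
    intro α
    simp only [Sat]
    rw [ih hφ α, ← Ultrafilter.eventually_not]
  | allMod x φ ih =>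
    intro α
    simp only [Sat]
    constructor
    · intro h
      by_contra hcon
      rw [← Ultrafilter.eventually_not] at hcon
      have hw : ∀ n, ∃ w : ρ.V, (¬ ∀ v, Sat ρ φ (Function.update (fun z => α z n) x v) β) →
          ¬ Sat ρ φ (Function.update (fun z => α z n) x w) β := by
        intro n
        by_cases h0 : ∀ v, Sat ρ φ (Function.update (fun z => α z n) x v) β
        · exact ⟨0, fun h1 => absurd h0 h1⟩
        · push Not at h0
          obtain ⟨w, hw⟩ := h0
          exact ⟨w, fun _ => hw⟩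
      choose w hw using hw
      have h1 := h (cls ρ U w)
      rw [upd] at h1
      have h2 := (ih hφ (Function.update α x w)).mp h1
      obtain ⟨n, hn1, hn2⟩ := (hcon.and h2).exists
      simp only [upd2] at hn2
      exact hw n hn1 hn2
    · intro h v
      obtain ⟨w, rfl⟩ := cls_surj ρ U v
      rw [upd]
      refine (ih hφ (Function.update α x w)).mpr (h.mono fun n hn => ?_)
      simp only [upd2]
      exact hn (w n)
  | exMod x φ ih =>
    intro α
    simp only [Sat]
    constructor
    · rintro ⟨v, hv⟩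
      obtain ⟨w, rfl⟩ := cls_surj ρ U v
      rw [upd] at hv
      refine ((ih hφ (Function.update α x w)).mp hv).mono fun n hn => ?_
      simp only [upd2] at hn
      exact ⟨w n, hn⟩
    · intro h
      have hw : ∀ n, ∃ w : ρ.V, (∃ v, Sat ρ φ (Function.update (fun z => α z n) x v) β) →
          Sat ρ φ (Function.update (fun z => α z n) x w) β := by
        intro n
        by_cases h0 : ∃ v, Sat ρ φ (Function.update (fun z => α z n) x v) β
        · obtain ⟨w, hw⟩ := h0
          exact ⟨w, fun _ => hw⟩
        · exact ⟨0, fun h1 => absurd h1 h0⟩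
      choose w hw using hw
      refine ⟨cls ρ U w, ?_⟩
      rw [upd]
      refine (ih hφ (Function.update α x w)).mpr (h.mono fun n hn => ?_)
      simp only [upd2]
      exact hw n hn
  | allGrp y φ _ => exact absurd hφ id
  | exGrp y φ _ => exact absurd hφ id

theorem holds_of_holds_ultra (φ : Fml K X Y) (hφ : IsAction φ) (h : Holds (ultra ρ U) φ) :
    Holds ρ φ := by
  intro α β
  have h1 := h (fun x => cls ρ U (fun _ => α x)) β
  have h2 := (sat_ultra ρ U β φ hφ (fun x _ => α x)).mp h1
  obtain ⟨n, hn⟩ := h2.exists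
  exact hn

end Ultra

/-! ### The example -/

/-- the group of all automorphisms of `K^(ℕ)` which fix almost all standard basis vectors -/
def finGroup (K : Type) [Ring K] : Subgroup ((ℕ →₀ K) ≃ₗ[K] (ℕ →₀ K)) where
  carrier := {g | ∃ N, ∀ n ≥ N, g (Finsupp.single n 1) = Finsupp.single n 1}
  mul_mem' := by
    rintro g h ⟨N, hN⟩ ⟨M, hM⟩
    refine ⟨max N M, fun n hn => ?_⟩
    rw [LinearEquiv.mul_apply, hM n (le_trans (le_max_right _ _) hn),
      hN n (le_trans (le_max_left _ _) hn)]
  one_mem' := ⟨0, fun n _ => rfl⟩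
  inv_mem' := by
    rintro g ⟨N, hN⟩
    refine ⟨N, fun n hn => ?_⟩
    have h1 := hN n hn
    calc g⁻¹ (Finsupp.single n 1) = g⁻¹ (g (Finsupp.single n 1)) := by rw [h1]
      _ = (g⁻¹ * g) (Finsupp.single n 1) := rfl
      _ = Finsupp.single n 1 := by rw [inv_mul_cancel]; rfl

/-- the representation -/
noncomputable def rep0 (K : Type) [Ring K] : Rep K where
  V := ℕ →₀ K
  G := (finGroup K)ᵐᵒᵖ
  act :=
    { toFun := fun g => MulOpposite.op (g.unop : (ℕ →₀ K) ≃ₗ[K] (ℕ →₀ K))
      map_one' := rfl
      map_mul' := fun _ _ => rfl }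

/-- the transvection adding the `n`-th coordinate to the `m`-th one -/
noncomputable def trans (K : Type) [Ring K] (n m : ℕ) (hnm : n ≠ m) :
    (ℕ →₀ K) ≃ₗ[K] (ℕ →₀ K) where
  toFun := fun v => v + Finsupp.single m (v n)
  invFun := fun v => v - Finsupp.single m (v n)
  map_add' := by
    intro v w
    simp only [Finsupp.add_apply, Finsupp.single_add]
    abel
  map_smul' := by
    intro a v
    simp only [Finsupp.smul_apply, RingHom.id_apply, smul_add, Finsupp.smul_single]
  left_inv := by
    intro v
    simp [Finsupp.single_eq_of_ne hnm]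
  right_inv := by
    intro v
    simp [Finsupp.single_eq_of_ne hnm]

theorem rep0_not_fix : ¬ FixClass (rep0 K) := by
  rintro ⟨v, hv, hfix⟩
  apply hv
  change (ℕ →₀ K) at v
  refine Finsupp.ext fun n => ?_
  have hmem : trans K n (n + 1) (by omega) ∈ finGroup K := by
    refine ⟨n + 1, fun k hk => ?_⟩
    change Finsupp.single k 1 + Finsupp.single (n + 1) ((Finsupp.single k (1 : K)) n) = _
    rw [Finsupp.single_eq_of_ne (by omega)]
    simp
  have h1 := hfix (MulOpposite.op ⟨trans K n (n + 1) (by omega), hmem⟩)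
  change v + Finsupp.single (n + 1) (v n) = v at h1
  rw [add_eq_left] at h1
  have h2 := Finsupp.single_eq_zero.mp h1
  exact h2

theorem ultra_rep0_fix [Nontrivial K] : FixClass (ultra (rep0 K) (hyperfilter ℕ)) := by
  refine ⟨cls (rep0 K) (hyperfilter ℕ) fun n => (Finsupp.single n 1 : ℕ →₀ K), ?_, ?_⟩
  · intro h
    obtain ⟨n, hn⟩ := ((cls_eq (rep0 K) (hyperfilter ℕ) _ (fun _ => 0)).mp h).exists
    exact one_ne_zero (Finsupp.single_eq_zero.mp hn)
  · intro g
    refine (cls_circ (rep0 K) (hyperfilter ℕ) _ g).trans ?_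
    refine (cls_eq (rep0 K) (hyperfilter ℕ) _ _).mpr ?_
    obtain ⟨N, hN⟩ := (g : (finGroup K)ᵐᵒᵖ).unop.2
    have h2 : ∀ᶠ n in ((hyperfilter ℕ : Ultrafilter ℕ) : Filter ℕ), N ≤ n :=
      Filter.Eventually.filter_mono Nat.hyperfilter_le_atTop (eventually_ge_atTop N)
    exact h2.mono fun n hn => hN n hn

/-- For every nontrivial ring `K` (and all infinite sets `X`, `Y` of variables) the class of all
representations with a nonzero fixed vector is an abstract class which is axiomatizable,
saturated and right hereditary, but which is not defined by any set of formulas of action. -/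
theorem result (K : Type) [Ring K] [Nontrivial K] (X Y : Type) [Infinite X] [Infinite Y] :
    ∃ C : Rep K → Prop, IsAbstract C ∧ (∃ T : Set (Fml K X Y), DefinedBy C T) ∧
      IsSaturated C ∧ IsRightHereditary C ∧
      ¬ ∃ T : Set (Fml K X Y), (∀ φ ∈ T, IsAction φ) ∧ DefinedBy C T := by
  obtain ⟨x⟩ := (inferInstance : Nonempty X)
  obtain ⟨y⟩ := (inferInstance : Nonempty Y)
  refine ⟨FixClass, fixClass_abstract, ⟨_, fixClass_defined x y⟩, fixClass_saturated,
    fixClass_hereditary, ?_⟩
  rintro ⟨T, hT, hdef⟩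
  apply rep0_not_fix (K := K)
  rw [hdef]
  intro φ hφ
  exact holds_of_holds_ultra (rep0 K) (hyperfilter ℕ) φ (hT φ hφ)
    ((hdef _).mp ultra_rep0_fix φ hφ)

end Pool.Agent.Results.MP_98e941_al.FixedVectorClass
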